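import Pool.Agent.U722.FF.Stm

set_option autoImplicit false

/-! Project FF, package AB: finitely generated torsion-free abelian groups. -/

namespace Pool.Agent.U884.FFP

open U722.FF MulAction

/-- the vertices of the line -/
@[ext] structure LZ where
  k : ℤ

instance instLZ (n : ℕ) : MulAction (Multiplicative (Fin (n + 1) → ℤ)) LZ where
  smul g x := ⟨x.k + Multiplicative.toAdd g 0⟩
  one_smul x := by
    apply LZ.ext
    change x.k + (0 : ℤ) = x.k
    rw [add_zero]
  mul_smul g h x := by
    apply LZ.ext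
    change x.k + (Multiplicative.toAdd g 0 + Multiplicative.toAdd h 0)
      = (x.k + Multiplicative.toAdd h 0) + Multiplicative.toAdd g 0
    ring

theorem smul_k {n : ℕ} (g : Multiplicative (Fin (n + 1) → ℤ)) (x : LZ) :
    (g • x).k = x.k + Multiplicative.toAdd g 0 := rfl

/-- the line -/
def line : SimpleGraph LZ where
  Adj a b := b.k = a.k + 1 ∨ a.k = b.k + 1
  symm := ⟨fun _ _ h => h.symm⟩
  loopless := ⟨fun a h => by rcases h with h | h <;> omega⟩

theorem line_adj (a b : LZ) : line.Adj a b ↔ (b.k = a.k + 1 ∨ a.k = b.k + 1) := Iff.rfl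

theorem line_tree : line.IsTree := by
  apply Pool.Agent.U709.BT.isTree_of_level line (fun x => x.k.natAbs) ⟨0⟩
  · intro u v h
    rw [line_adj] at h
    omega
  · intro v hv
    have hv0 : v.k ≠ 0 := fun h => hv (LZ.ext h)
    rcases lt_or_gt_of_ne hv0 with h | h
    · refine ⟨⟨v.k + 1⟩, ?_, ?_⟩
      · rw [line_adj]
        left
        rfl
      · change (v.k + 1).natAbs < v.k.natAbs
        omega
    · refine ⟨⟨v.k - 1⟩, ?_, ?_⟩
      · rw [line_adj]
        right
        change v.k = v.k - 1 + 1
        ring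
      · change (v.k - 1).natAbs < v.k.natAbs
        omega
  · intro v u u' h h' hl hl'
    rw [line_adj] at h h'
    change u.k.natAbs < v.k.natAbs at hl
    change u'.k.natAbs < v.k.natAbs at hl'
    apply LZ.ext
    omega

theorem fg_Zn (n : ℕ) : Group.FG (Multiplicative (Fin n → ℤ)) := by
  have h1 : Module.Finite ℤ (Fin n → ℤ) := inferInstance
  have h2 : AddGroup.FG (Fin n → ℤ) := Module.Finite.iff_addGroup_fg.1 h1
  exact AddGroup.fg_iff_mul_fg.1 h2

/-- the subgroup of the elements with first coordinate `0` -/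
def K0 (n : ℕ) : Subgroup (Multiplicative (Fin (n + 1) → ℤ)) where
  carrier := {g | Multiplicative.toAdd g 0 = 0}
  one_mem' := rfl
  mul_mem' := by
    intro a b ha hb
    change Multiplicative.toAdd a 0 + Multiplicative.toAdd b 0 = 0
    have ha' : Multiplicative.toAdd a 0 = 0 := ha
    have hb' : Multiplicative.toAdd b 0 = 0 := hb
    rw [ha', hb', add_zero]
  inv_mem' := by
    intro a ha
    change - Multiplicative.toAdd a 0 = 0
    have ha' : Multiplicative.toAdd a 0 = 0 := ha
    rw [ha', neg_zero]

theorem mem_K0 {n : ℕ} (g : Multiplicative (Fin (n + 1) → ℤ)) :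
    g ∈ K0 n ↔ Multiplicative.toAdd g 0 = 0 := Iff.rfl

theorem stab {n : ℕ} (v : LZ) : stabilizer (Multiplicative (Fin (n + 1) → ℤ)) v = K0 n := by
  ext g
  rw [mem_stabilizer_iff, mem_K0]
  constructor
  · intro h
    have := congrArg LZ.k h
    rw [smul_k] at this
    omega
  · intro h
    apply LZ.ext
    rw [smul_k, h, add_zero]

/-- dropping the first coordinate -/
def isoK (n : ℕ) : Multiplicative (Fin n → ℤ) ≃* ↥(K0 n) where
  toFun g := ⟨Multiplicative.ofAdd (Fin.cons 0 (Multiplicative.toAdd g) : Fin (n + 1) → ℤ), rfl⟩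
  invFun g := Multiplicative.ofAdd (Fin.tail (Multiplicative.toAdd g.1))
  left_inv g := by
    rfl
  right_inv g := by
    apply Subtype.ext
    change Multiplicative.ofAdd (Fin.cons 0 (Fin.tail (Multiplicative.toAdd g.1)) : Fin (n + 1) → ℤ) = g.1
    have h : Multiplicative.toAdd g.1 0 = 0 := g.2
    conv_rhs => rw [← ofAdd_toAdd g.1, ← Fin.cons_self_tail (Multiplicative.toAdd g.1), h]
  map_mul' g h := by
    apply Subtype.ext
    change Multiplicative.ofAdd (Fin.cons 0 (Multiplicative.toAdd g + Multiplicative.toAdd h) : Fin (n + 1) → ℤ)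
      = Multiplicative.ofAdd ((Fin.cons 0 (Multiplicative.toAdd g) : Fin (n + 1) → ℤ)
        + (Fin.cons 0 (Multiplicative.toAdd h) : Fin (n + 1) → ℤ))
    congr 1
    funext i
    refine Fin.cases ?_ (fun j => ?_) i
    · change (0 : ℤ) = 0 + 0
      rfl
    · change (Multiplicative.toAdd g + Multiplicative.toAdd h) j = _
      rfl

theorem TF_Zn (hT : S_TT) (h0 : S_TRIV) (hI : S_ISO) (n : ℕ) :
    TF (Multiplicative (Fin n → ℤ)) := by
  induction n with
  | zero =>
    haveI : Subsingleton (Multiplicative (Fin 0 → ℤ)) := inferInstanceAs (Subsingleton (Fin 0 → ℤ))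
    exact h0 _
  | succ n ih =>
    have hTF : TF ↥(K0 n) := hI _ _ (isoK n) ih
    have hFG : Group.FG ↥(K0 n) := by
      haveI := fg_Zn n
      exact Group.fg_of_surjective (f := (isoK n).toMonoidHom) (isoK n).surjective
    apply hT (Multiplicative (Fin (n + 1) → ℤ)) LZ line (fg_Zn (n + 1)) line_tree
    · intro g u v h
      rw [line_adj] at h ⊢
      rw [smul_k, smul_k]
      omega
    · intro g u v h h1 h2
      rw [line_adj] at h
      have e1 := congrArg LZ.k h1
      have e2 := congrArg LZ.k h2
      rw [smul_k] at e1 e2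
      omega
    · intro u v h
      have e : stabilizer (Multiplicative (Fin (n + 1) → ℤ)) u
          ⊓ stabilizer (Multiplicative (Fin (n + 1) → ℤ)) v = K0 n := by
        rw [stab, stab, inf_idem]
      rw [e]
      exact ⟨hTF, hFG⟩
    · intro v _
      rw [stab]
      exact hTF

theorem iso_Zn (G : Type) [Group G] (hc : ∀ a b : G, a * b = b * a) (hfg : Group.FG G)
    (ht : NoTor G) : ∃ n : ℕ, Nonempty (Multiplicative (Fin n → ℤ) ≃* G) := by
  letI : CommGroup G := { (inferInstance : Group G) with mul_comm := hc }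
  haveI : AddGroup.FG (Additive G) := GroupFG.iff_add_fg.1 hfg
  haveI : Module.Finite ℤ (Additive G) := Module.Finite.iff_addGroup_fg.2 inferInstance
  haveI : Module.IsTorsionFree ℤ (Additive G) := by
    rw [Module.isTorsionFree_iff_smul_eq_zero]
    intro z x h
    by_contra hne
    push Not at hne
    obtain ⟨hz, hx⟩ := hne
    apply hx
    have h2 : z.natAbs • x = 0 := by
      rcases Int.natAbs_eq z with h3 | h3
      · rw [h3, natCast_zsmul] at h
        exact h
      · rw [h3, neg_smul, neg_eq_zero, natCast_zsmul] at h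
        exact h
    exact ht (Additive.toMul x) z.natAbs (by omega) h2
  let b := Module.finBasis ℤ (Additive G)
  exact ⟨_, ⟨(AddEquiv.toMultiplicative b.equivFun.toAddEquiv).symm.trans
    { toFun := fun x => x, invFun := fun x => x, left_inv := fun _ => rfl, right_inv := fun _ => rfl,
      map_mul' := fun _ _ => rfl }⟩⟩

theorem t_AB (hT : S_TT) (h0 : S_TRIV) (hI : S_ISO) : S_AB := by
  intro G _ hc hfg ht
  obtain ⟨n, ⟨e⟩⟩ := iso_Zn G hc hfg ht
  exact hI _ _ e (TF_Zn hT h0 hI n)

end Pool.Agent.U884.FFP
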